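import Pool.Agent.H590.PL.Stm

/-!
# K4: layer cake
-/

set_option autoImplicit false

open MeasureTheory Filter Topology Set
open scoped ENNReal

namespace Pool.Agent.H505.PL

open H590PL

/-- the primitive -/
theorem prim {b r c : ℝ} (hb : 0 < b) (hr : 0 < r) (hc : 0 ≤ c) :
    IntegrableOn (fun l : ℝ => r * (l + b) ^ (-(r + 1))) (Ioi c) ∧
    ∫ l in Ioi c, r * (l + b) ^ (-(r + 1)) = (c + b) ^ (-r) := by
  have hi : IntegrableOn (fun l : ℝ => r * (l + b) ^ (-(r + 1))) (Ioi c) :=
    (integrableOn_add_rpow_Ioi_of_lt (by linarith) (by linarith)).const_mul r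
  refine ⟨hi, ?_⟩
  have hd : ∀ x ∈ Ici c, HasDerivAt (fun l : ℝ => -((l + b) ^ (-r))) (r * (x + b) ^ (-(r + 1))) x := by
    intro x hx
    have hx' : 0 < x + b := by linarith [mem_Ici.1 hx]
    have h1 : HasDerivAt (fun l : ℝ => l + b) 1 x := (hasDerivAt_id x).add_const b
    have h2 := (h1.rpow_const (p := -r) (Or.inl hx'.ne')).neg
    refine h2.congr_deriv ?_
    rw [show -r - 1 = -(r + 1) by ring]
    ring
  have ht : Tendsto (fun l : ℝ => -((l + b) ^ (-r))) atTop (𝓝 (-0)) :=
    ((tendsto_rpow_neg_atTop hr).comp (tendsto_atTop_add_const_right _ b tendsto_id)).neg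
  rw [integral_Ioi_of_hasDerivAt_of_tendsto' hd hi ht]
  ring

theorem prim' {b r c : ℝ} (hb : 0 < b) (hr : 0 < r) (hc : 0 ≤ c) :
    ∫⁻ l in Ici c, ENNReal.ofReal (r * (l + b) ^ (-(r + 1))) = ENNReal.ofReal ((c + b) ^ (-r)) := by
  obtain ⟨h1, h2⟩ := prim hb hr hc
  rw [← h2, ofReal_integral_eq_lintegral_ofReal h1]
  · exact setLIntegral_congr Ioi_ae_eq_Ici.symm
  · refine (ae_restrict_iff' measurableSet_Ioi).2 (Eventually.of_forall fun x hx => ?_)
    have : 0 < x + b := by linarith [mem_Ioi.1 hx]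
    simp only [Pi.zero_apply]
    positivity

section
variable {κ : Type} [Fintype κ] {p : ℝ} {A B : κ → ℝ}

theorem ph_nonneg (s : ℝ) : 0 ≤ ph p A B s := by
  unfold ph
  exact Finset.sum_nonneg fun i _ => Real.rpow_nonneg (abs_nonneg _) _

theorem ph_cont (hp : 0 ≤ p) : Continuous (ph p A B) := by
  unfold ph
  refine continuous_finsetSum _ fun i _ => ?_
  exact Continuous.rpow_const (by fun_prop) fun _ => Or.inr hp

theorem lmin_le (s : ℝ) : lmin p A B ≤ ph p A B s :=
  csInf_le ⟨0, by rintro _ ⟨s, rfl⟩; exact ph_nonneg s⟩ (mem_range_self s)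

end

theorem K4 (h : S_K2) : S_K4 := by
  intro κ _ p hp1 hp2 A B b r hA hb hr
  obtain ⟨h0, -, hz, hfin, ⟨C, hC⟩, -⟩ := h κ p hp1 hp2 A B hA
  have hp0 : 0 < p := by linarith
  have hr0 : 0 < r := lt_trans (by positivity) hr
  have hcont : Continuous (ph p A B) := ph_cont hp0.le
  have hmono : Monotone (Wl p A B) := by
    intro l l' hl
    exact ENNReal.toReal_mono (hfin l') (measure_mono fun s hs => le_trans hs hl)
  have hWm : Measurable (Wl p A B) := hmono.measurable
  have hW0 : ∀ l, 0 ≤ Wl p A B l := fun l => ENNReal.toReal_nonneg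
  have hwm : Measurable fun l : ℝ => (l + b) ^ (-(r + 1)) := by fun_prop
  -- integrability
  have hint : IntegrableOn (fun l => (l + b) ^ (-(r + 1)) * Wl p A B l) (Ioi (lmin p A B)) := by
    have hg : IntegrableOn (fun l : ℝ => |C| * (l + b) ^ (-(r + 1) + 1 / p)) (Ioi (lmin p A B)) :=
      (integrableOn_add_rpow_Ioi_of_lt (by linarith) (by linarith)).const_mul _
    refine Integrable.mono' hg (hwm.mul hWm).aestronglyMeasurable ?_
    refine (ae_restrict_iff' measurableSet_Ioi).2 (Eventually.of_forall fun l hl => ?_)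
    have hl0 : 0 < l := lt_of_le_of_lt h0 hl
    have hlb : 0 < l + b := by linarith
    rw [Real.norm_eq_abs, abs_of_nonneg (mul_nonneg (by positivity) (hW0 l)), Real.rpow_add hlb]
    have h1 : Wl p A B l ≤ |C| * (l + b) ^ (1 / p) := by
      refine (hC l hl0.le).trans ?_
      refine mul_le_mul (le_abs_self C) ?_ (by positivity) (abs_nonneg C)
      exact Real.rpow_le_rpow hl0.le (by linarith) (by positivity)
    calc (l + b) ^ (-(r + 1)) * Wl p A B l
        ≤ (l + b) ^ (-(r + 1)) * (|C| * (l + b) ^ (1 / p)) :=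
          mul_le_mul_of_nonneg_left h1 (by positivity)
      _ = |C| * ((l + b) ^ (-(r + 1)) * (l + b) ^ (1 / p)) := by ring
  refine ⟨hint, ?_⟩
  -- Tonelli
  set K : ℝ → ℝ → ℝ≥0∞ := fun s l =>
    {q : ℝ × ℝ | ph p A B q.1 ≤ q.2}.indicator
      (fun q => ENNReal.ofReal (r * (q.2 + b) ^ (-(r + 1)))) (s, l) with hK
  have hset : MeasurableSet {q : ℝ × ℝ | ph p A B q.1 ≤ q.2} :=
    measurableSet_le (hcont.measurable.comp measurable_fst) measurable_snd
  have hKm : Measurable (Function.uncurry K) := by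
    have : Function.uncurry K = {q : ℝ × ℝ | ph p A B q.1 ≤ q.2}.indicator
        (fun q => ENNReal.ofReal (r * (q.2 + b) ^ (-(r + 1)))) := by
      funext q
      rfl
    rw [this]
    refine Measurable.indicator ?_ hset
    exact ENNReal.measurable_ofReal.comp ((hwm.comp measurable_snd).const_mul r)
  have hK1 : ∀ s, ∫⁻ l, K s l = ENNReal.ofReal ((ph p A B s + b) ^ (-r)) := by
    intro s
    rw [← prim' hb hr0 (ph_nonneg s), ← lintegral_indicator measurableSet_Ici]
    rfl
  have hK2 : ∀ l, ∫⁻ s, K s l =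
      ENNReal.ofReal (r * (l + b) ^ (-(r + 1))) * volume {s : ℝ | ph p A B s ≤ l} := by
    intro l
    have e : (fun s => K s l) = {s : ℝ | ph p A B s ≤ l}.indicator
        (fun _ => ENNReal.ofReal (r * (l + b) ^ (-(r + 1)))) := by
      funext s
      rfl
    have hms : MeasurableSet {s : ℝ | ph p A B s ≤ l} := hcont.measurable measurableSet_Iic
    rw [e, lintegral_indicator hms, lintegral_const, Measure.restrict_apply_univ]
  have hsw := lintegral_lintegral_swap (μ := (volume : Measure ℝ)) (ν := (volume : Measure ℝ))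
    hKm.aemeasurable
  simp_rw [hK1, hK2] at hsw
  -- the right side
  have hright : ∫⁻ l, ENNReal.ofReal (r * (l + b) ^ (-(r + 1))) * volume {s : ℝ | ph p A B s ≤ l} =
      ∫⁻ l in Ioi (lmin p A B), ENNReal.ofReal (r * ((l + b) ^ (-(r + 1)) * Wl p A B l)) := by
    have e1 : ∫⁻ l, ENNReal.ofReal (r * (l + b) ^ (-(r + 1))) * volume {s : ℝ | ph p A B s ≤ l} =
        ∫⁻ l in Ici (lmin p A B),
          ENNReal.ofReal (r * (l + b) ^ (-(r + 1))) * volume {s : ℝ | ph p A B s ≤ l} := by
      rw [← lintegral_indicator measurableSet_Ici]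
      refine lintegral_congr fun l => ?_
      by_cases hl : l ∈ Ici (lmin p A B)
      · rw [indicator_of_mem hl]
      · rw [indicator_of_notMem hl]
        have : {s : ℝ | ph p A B s ≤ l} = ∅ := by
          ext s
          refine ⟨fun hs => ?_, fun hs => absurd hs (notMem_empty s)⟩
          exact absurd ((lmin_le s).trans hs) hl
        rw [this, measure_empty, mul_zero]
    rw [e1, setLIntegral_congr Ioi_ae_eq_Ici.symm]
    refine setLIntegral_congr_fun measurableSet_Ioi fun l hl => ?_
    have hl0 : 0 < l := lt_of_le_of_lt h0 hl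
    have hlb : 0 < l + b := by linarith
    have e2 : volume {s : ℝ | ph p A B s ≤ l} = ENNReal.ofReal (Wl p A B l) :=
      (ENNReal.ofReal_toReal (hfin l)).symm
    rw [e2, ← ENNReal.ofReal_mul (by positivity), mul_assoc]
  rw [hright] at hsw
  have hnn : ∀ s, 0 ≤ (ph p A B s + b) ^ (-r) := by
    intro s
    have := ph_nonneg (p := p) (A := A) (B := B) s
    positivity
  have hcm : Continuous fun s => (ph p A B s + b) ^ (-r) := by
    refine Continuous.rpow_const (by fun_prop) fun s => Or.inl ?_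
    have := ph_nonneg (p := p) (A := A) (B := B) s
    positivity
  rw [integral_eq_lintegral_of_nonneg_ae (Eventually.of_forall hnn) hcm.aestronglyMeasurable, hsw,
    ← integral_const_mul]
  have hint' : IntegrableOn (fun l => r * ((l + b) ^ (-(r + 1)) * Wl p A B l)) (Ioi (lmin p A B)) :=
    hint.const_mul r
  rw [integral_eq_lintegral_of_nonneg_ae _ hint'.aestronglyMeasurable]
  refine (ae_restrict_iff' measurableSet_Ioi).2 (Eventually.of_forall fun l hl => ?_)
  have hl0 : 0 < l := lt_of_le_of_lt h0 hl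
  have hlb : 0 < l + b := by linarith
  have := hW0 l
  simp only [Pi.zero_apply]
  positivity

end Pool.Agent.H505.PL
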